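import Pool.Agent.helper62.QU.Spec

/-! Row KFM: a family of probability kernels. -/

open scoped MatrixGroups ContDiff Topology UpperHalfPlane
open UpperHalfPlane MeasureTheory Filter Set

namespace Pool.Agent.QU

/-- a bump function -/
private lemma KFM_bump (c₀ : ℝ) (hc₀ : 0 < c₀) : ∃ κ₁ : ℝ → ℝ, ContDiff ℝ ∞ κ₁ ∧ (∀ t, 0 ≤ κ₁ t) ∧
    (∀ t, 1 ≤ t → κ₁ t = 0) ∧ (∀ t, 0 ≤ t → t < 1 → 0 < κ₁ t) ∧
    ∫ t in (0 : ℝ)..1, κ₁ t = 1 / c₀ := by
  let b : ContDiffBump (0 : ℝ) := ⟨1 / 2, 1, by norm_num, by norm_num⟩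
  have hb0 : ∀ t, 0 ≤ b t := fun t => b.nonneg
  have hb1 : ∀ t, 1 ≤ t → b t = 0 := by
    intro t ht
    apply b.zero_of_le_dist
    rw [Real.dist_eq, sub_zero]
    exact ht.trans (le_abs_self t)
  have hb2 : ∀ t, 0 ≤ t → t < 1 → 0 < b t := by
    intro t ht ht1
    apply b.pos_of_mem_ball
    rw [Metric.mem_ball, Real.dist_eq, sub_zero, abs_of_nonneg ht]
    exact ht1
  have hbc : Continuous b := b.continuous
  obtain ⟨I, hI⟩ : ∃ I : ℝ, I = ∫ t in (0 : ℝ)..1, b t := ⟨_, rfl⟩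
  have hI0 : 0 < I := by
    rw [hI]
    refine intervalIntegral.intervalIntegral_pos_of_pos_on (hbc.intervalIntegrable _ _) ?_ one_pos
    intro t ht
    exact hb2 t ht.1.le ht.2
  have hcI : 0 < c₀ * I := mul_pos hc₀ hI0
  refine ⟨fun t => b t / (c₀ * I), b.contDiff.div_const _, fun t => div_nonneg (hb0 t) hcI.le,
    fun t ht => by simp only [hb1 t ht, zero_div], fun t ht ht1 => div_pos (hb2 t ht ht1) hcI, ?_⟩
  rw [intervalIntegral.integral_div, ← hI]
  field_simp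

theorem KFM (h1 : MAS_stmt) (h2 : ROD_stmt) : KFM_stmt := by
  obtain ⟨c₀, hc₀, hmas⟩ := h1
  obtain ⟨κ₁, hs, hn, hz, hp, hi⟩ := KFM_bump c₀ hc₀
  have hc : Continuous κ₁ := hs.continuous
  have hint : ∀ a b, IntervalIntegrable κ₁ volume a b := fun a b => hc.intervalIntegrable a b
  obtain ⟨Q, hQ⟩ : ∃ Q : ℝ → ℝ, ∀ t, Q t = ∫ r in (0 : ℝ)..t, κ₁ r := ⟨_, fun t => rfl⟩
  have hQmono : ∀ a b, 0 ≤ a → a ≤ b → Q a ≤ Q b := by
    intro a b _ hab
    rw [hQ, hQ, ← intervalIntegral.integral_add_adjacent_intervals (hint 0 a) (hint a b)]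
    have := intervalIntegral.integral_nonneg (f := κ₁) (μ := volume) hab (fun u _ => hn u)
    linarith
  have hQ0 : Q 0 = 0 := by rw [hQ, intervalIntegral.integral_same]
  have hQ1 : Q 1 = 1 / c₀ := by rw [hQ, hi]
  have hQbig : ∀ t, 1 ≤ t → Q t = 1 / c₀ := by
    intro t ht
    rw [hQ, ← intervalIntegral.integral_add_adjacent_intervals (hint 0 1) (hint 1 t), hi]
    have h3 : ∫ r in (1 : ℝ)..t, κ₁ r = ∫ r in (1 : ℝ)..t, (0 : ℝ) := by
      refine intervalIntegral.integral_congr fun r hr => ?_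
      rw [uIcc_of_le ht] at hr
      exact hz r hr.1
    rw [h3, intervalIntegral.integral_zero, add_zero]
  have hQle : ∀ t, 0 ≤ t → Q t ≤ 1 / c₀ := by
    intro t ht
    rcases le_total t 1 with h | h
    · rw [← hQ1]; exact hQmono t 1 ht h
    · exact (hQbig t h).le
  have hQnn : ∀ t, 0 ≤ t → 0 ≤ Q t := by
    intro t ht
    rw [← hQ0]
    exact hQmono 0 t le_rfl ht
  obtain ⟨fam, hfam⟩ : ∃ fam : ℝ → ℝ → ℝ, ∀ η t, fam η t = κ₁ (t / η) / η :=
    ⟨_, fun _ _ => rfl⟩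
  have hfe : ∀ η, fam η = fun t => κ₁ (t / η) / η := fun η => funext (hfam η)
  have hsm : ∀ η, ContDiff ℝ ∞ (fam η) := by
    intro η
    rw [hfe]
    exact (hs.comp (contDiff_id.div_const η)).div_const η
  have hnn : ∀ η, 0 < η → ∀ t, 0 ≤ fam η t := by
    intro η hη t
    rw [hfam]
    exact div_nonneg (hn _) hη.le
  have hsup : ∀ η, 0 < η → ∀ t, η ≤ t → fam η t = 0 := by
    intro η hη t ht
    rw [hfam, hz _ ((one_le_div hη).2 ht), zero_div]
  have hfint : ∀ η, 0 < η → ∀ t, ∫ r in (0 : ℝ)..t, fam η r = Q (t / η) := by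
    intro η hη t
    rw [hfe, intervalIntegral.integral_div, intervalIntegral.integral_comp_div κ₁ hη.ne',
      zero_div, ← hQ, smul_eq_mul, mul_div_assoc, mul_comm, div_mul_cancel₀ _ hη.ne']
  refine ⟨fam, ⟨fun η hη => ⟨hsm η, η, hsup η hη⟩, hnn, hsup, ?_, ?_, ?_⟩⟩
  · intro η hη t ht htη
    rw [hfam]
    exact div_pos (hp _ (div_nonneg ht hη.le) ((div_lt_one hη).2 htη)) hη
  · intro η hη z
    rw [hmas (fam η) η (hsm η) hη (hsup η hη) z, hfint η hη η, div_self hη.ne', hQ1]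
    field_simp
  · intro η η' hη' hle
    have hη : 0 < η := lt_of_lt_of_le hη' hle
    have hfi : ∀ η t, IntervalIntegrable (fam η) volume 0 t :=
      fun η t => (hsm η).continuous.intervalIntegrable _ _
    have hθ : ∀ t, ∫ r in (0 : ℝ)..t, (fam η r - fam η' r) = Q (t / η) - Q (t / η') := by
      intro t
      rw [intervalIntegral.integral_sub (hfi η t) (hfi η' t), hfint η hη, hfint η' hη']
    obtain ⟨ψ, hψ, hψs, hψL, hψc⟩ := h2 (fun t => fam η t - fam η' t) η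
      ((hsm η).sub (hsm η')) hη (fun t ht => by
        show fam η t - fam η' t = 0
        rw [hsup η hη t ht, hsup η' hη' t (hle.trans ht), sub_zero]) (by
        rw [hθ, div_self hη.ne', hQ1, hQbig _ ((one_le_div hη').2 hle), sub_self])
    obtain ⟨h3, h4⟩ := hψc (1 / c₀) (fun t ht => by
      rw [hθ]
      have ha : 0 ≤ t / η := div_nonneg ht hη.le
      have hb : 0 ≤ t / η' := div_nonneg ht hη'.le
      have hab : t / η ≤ t / η' := div_le_div_of_nonneg_left ht hη' hle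
      have := hQmono _ _ ha hab
      have := hQle _ hb
      have := hQnn _ ha
      constructor <;> linarith)
    refine ⟨ψ, hψ, h3, fun t ht => ?_, fun z => ?_⟩
    · rw [hψL t ht]
      ring
    · rw [hmas ψ η hψ.smooth hη hψs z]
      calc c₀ * ∫ t in (0 : ℝ)..η, ψ t ≤ c₀ * (1 / c₀ * η / 2) :=
            mul_le_mul_of_nonneg_left h4 hc₀.le
        _ = η / 2 := by field_simp

end Pool.Agent.QU
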